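import Pool.Agent.R485.Cantor.Orders

/-!
# Normality of all orders except one

For every `j ≥ 1` there are a fully divergent basic sequence `Q` and a real number which is `Q`-normal
of every order `k ≠ j` and not `Q`-normal of order `j`.

The basic sequence consists of runs of small (slowly growing) values `b`, separated by huge terms, at
which the digit is large. There are cycles of runs: all words of length `m + 1` in base `b = m + 2`,
followed by many repetitions of all words of length `j` with digit sum divisible by `b`. The
latter do not matter for the orders greater than `j`, are balanced for the orders smaller than `j` and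
contain the block `0 ⋯ 0` of length `j` too often.
-/

set_option autoImplicit false

namespace Pool.Agent.Results.MP_f007e6_nt.PrescribedOrders

open Filter Topology Pool.Agent.R485.Cantor

/-- `Q` is fully divergent: `Q_n^{(k)} → ∞` for every `k ≥ 1`. -/
def FullyDivergent (q : ℕ → ℕ) : Prop := ∀ k, 1 ≤ k → Tendsto (weight q k 1 0) atTop atTop

/-- For every partition of the positive integers into `A` and a non-empty set `B` and for every
`j ∈ B` there are a fully divergent basic sequence `q` (with `q_n → ∞`) and a real number `x` which is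
`Q`-normal of all orders `k ≥ 1` except `j` and not `Q`-normal of order `j`. In particular `x` belongs
to `⋂_{k ∈ A} N_k(Q)` and not to `⋂_{k ∈ B} N_k(Q)`. -/
theorem result (A B : Set ℕ) (_ : A.Nonempty) (_ : B.Nonempty) (hdis : Disjoint A B)
    (hun : A ∪ B = Set.Ici 1) : ∀ j ∈ B, ∃ (q : ℕ → ℕ) (x : ℝ), Basic q ∧ FullyDivergent q ∧
      Tendsto q atTop atTop ∧ (∀ k, 1 ≤ k → (NormalOfOrder q k x ↔ k ≠ j)) ∧
      x ∈ (⋂ k ∈ A, {y : ℝ | NormalOfOrder q k y}) \ ⋂ k ∈ B, {y : ℝ | NormalOfOrder q k y} := by
  intro j hj
  have hj1 : 1 ≤ j := by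
    have : j ∈ A ∪ B := Or.inr hj
    rw [hun] at this
    exact this
  obtain ⟨q, x, h1, h2, h3, h4, h5⟩ := orders j hj1
  refine ⟨q, x, h1, h3, h2, fun k hk => ⟨fun h hkj => ?_, h4 k hk⟩, ?_, ?_⟩
  · subst hkj
    exact h5 h
  · rw [Set.mem_iInter₂]
    intro k hk
    have hk1 : 1 ≤ k := by
      have : k ∈ A ∪ B := Or.inl hk
      rw [hun] at this
      exact this
    refine h4 k hk1 ?_
    rintro rfl
    exact Set.disjoint_left.1 hdis hk hj
  · intro h
    rw [Set.mem_iInter₂] at h
    exact h5 (h j hj)

end Pool.Agent.Results.MP_f007e6_nt.PrescribedOrders
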